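import Pool.Agent.H57.LH.Targets2

/-!
# Row LBL: from local injections to behaviours
-/

set_option autoImplicit false

namespace Pool.Agent.H64.LH

open Pool.Agent.H68.BP Pool.Agent.H58.SF Pool.Agent.H53.GC Pool.Agent.H53.NR
open Pool.Agent.H53.GR (Dm Ps)
open Pool.Agent.H57.AR (tp ty tpo pullO Ty OT HomEq El ElD FamR Od GmR INJ lft)
open Pool.Agent.H57.SO (Pal Col vt Bh Sbn fib sigF)
open Pool.Agent.H57.EQ (Cx T_CYF)
open Pool.Agent.H57.LCI (LocalCompletions Pre Realizes)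
open Pool.Agent.H44.KR (HB Amg Tyi Rz Rlz Clp LInj Prm TpOn RmL LcN Pl lr blk Fv kv RkI Kd JJ Yc
  IsTh Can Plf Pls Sb OfS)
open Pool.Agent.H57.LH Function

section lemmas

variable {V : Type} {σ ρ : Sig} {𝔸 : Str σ V} {𝔹 : Str ρ V}

/-- composition of combinations -/
theorem cx_trans {I W : Type} {G : I → W → V} {ψ ψ' : W → V} (h : Cx 𝔸 G ψ)
    (h' : Cx 𝔸 (fun _ : Unit => ψ) ψ') : Cx 𝔸 G ψ' :=
  fun l z hz => h' l z fun _ => h l z hz

/-- behaviours in terms of the types `vs` -/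
theorem bh_vs {I : Type} {τ : (I → SS 𝔹) → SS 𝔹} {κ : (I → SS 𝔹) → (I → SS 𝔹) → Set I → Prop}
    (h : Bh (P0 𝔹) 𝔸 (c0 𝔹) τ κ) (W : Type) [Finite W] (G : I → W → V) :
    ∃ ψ : W → V, Cx 𝔸 G ψ ∧ (∀ w, vs 𝔹 (ψ w) = τ (fun i => vs 𝔹 (G i w))) ∧
      ∀ u w, ψ u = ψ w ↔ κ (fun i => vs 𝔹 (G i u)) (fun i => vs 𝔹 (G i w)) {i | G i u = G i w} := by
  obtain ⟨ψ, h1, h2, h3⟩ := h W G
  simp only [vt_c0] at h2 h3
  exact ⟨ψ, h1, h2, h3⟩

/-- two different elements of one type -/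
theorem two_elements (hA : Amg 𝔹) (x : V) : ∃ y, y ≠ x ∧ vs 𝔹 y = vs 𝔹 x := by
  obtain ⟨x', h1, -, h3⟩ := hA Unit ∅ (fun _ => x) (fun _ => x) {x}
    ⟨fun _ _ _ _ => Iff.rfl, fun _ _ _ => Iff.rfl⟩
  refine ⟨x' (), fun h => ?_, ?_⟩
  · obtain ⟨a, ha, -⟩ := h3 () (by rw [h]; exact Finset.mem_singleton_self x)
    exact ha
  · rw [vs_eq_iff]
    funext l
    exact congrFun (congrFun (congrArg Prod.snd h1) l) fun _ => ()

/-- iterates of an action are actions -/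
theorem iter_sbn (c : SS 𝔹 → SS 𝔹) (hc : ∀ (W : Type) [Finite W] (G : W → V), ∃ ψ : W → V,
    Cx 𝔸 (fun _ : Unit => G) ψ ∧ ∀ w, vs 𝔹 (ψ w) = c (vs 𝔹 (G w))) (j : ℕ) :
    ∀ (W : Type) [Finite W] (G : W → V), ∃ ψ : W → V, Cx 𝔸 (fun _ : Unit => G) ψ ∧
      ∀ w, vs 𝔹 (ψ w) = c^[j] (vs 𝔹 (G w)) := by
  induction j with
  | zero =>
    intro W _ G
    exact ⟨G, fun l z hz => hz (), fun w => rfl⟩
  | succ j ih =>
    intro W _ G
    obtain ⟨ψ₁, h1, h2⟩ := hc W G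
    obtain ⟨ψ₂, h3, h4⟩ := ih W ψ₁
    refine ⟨ψ₂, cx_trans h1 h3, fun w => ?_⟩
    rw [h4, h2, iterate_succ_apply]

end lemmas

/-- the property of the local injections -/
def RR (ρ : Sig) (s : Fin ρ.m → Prop) (T : Fin 2 → Ty ρ (Fin 2)) (t : Ty ρ (Fin 2)) : Prop :=
  (∀ a : Fin 2, (∀ i, (fun l => (T i).2 l (fun _ => a)) = s) → (fun l => t.2 l (fun _ => a)) = s) ∧
    ((∀ (a : Fin 2) (i : Fin 2), (fun l => (T i).2 l (fun _ => a)) = s) → t.1 0 1 →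
      ∀ i, (T i).1 0 1)

theorem pf_LBL (hKRL : T_KRL) (hBHP : T_BHP) : T_LBL := by
  classical
  intro V σ ρ _ 𝔸 𝔹 m hB hO hT hm hC hZ hP s hL hnc
  -- the binary behaviour
  have hloc : LocP 𝔸 𝔹 (RR ρ s.1) := by
    intro W _ G
    obtain ⟨ψ, h1, h2, h3⟩ := hL W G
    refine ⟨ψ, h1, fun u w => ⟨fun a ha => ?_, fun ha ht => ?_⟩⟩
    · have ha' : ∀ i, ty 𝔹 (![G i u, G i w] a) = s.1 := ha
      change ty 𝔹 (![ψ u, ψ w] a) = s.1
      fin_cases a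
      · exact h2 u ha'
      · exact h2 w ha'
    · have ha' : ∀ a i, ty 𝔹 (![G i u, G i w] a) = s.1 := ha
      have ht' : ψ u = ψ w := ht
      intro i
      change G i u = G i w
      exact h3 u w (ha' 0) (ha' 1) ht' i
  obtain ⟨Ψ, hΨ⟩ := hZ (Fin 2) (RR ρ s.1) hloc
  obtain ⟨τ₁, κ₁, hbh₁, hall⟩ := hBHP V σ ρ 𝔸 𝔹 m hB hO hT hm hC (Fin 2) (RR ρ s.1) Ψ hΨ
  have hstar : ∀ (W : Type) [Finite W] (G : Fin 2 → W → V), ∃ ψ : W → V, Cx 𝔸 G ψ ∧
      (∀ w, vs 𝔹 (ψ w) = τ₁ (fun i => vs 𝔹 (G i w))) ∧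
      (∀ u w, ψ u = ψ w ↔ κ₁ (fun i => vs 𝔹 (G i u)) (fun i => vs 𝔹 (G i w))
        {i | G i u = G i w}) ∧
      ∀ u w, RR ρ s.1 (fun i => tp 𝔹 ![G i u, G i w]) (tp 𝔹 ![ψ u, ψ w]) := by
    intro W _ G
    obtain ⟨ψ, h1, h2, h3⟩ := hΨ W G
    obtain ⟨h4, h5⟩ := hall W G ψ h2
    exact ⟨ψ, h1, h4, h5, h3⟩
  obtain ⟨x₀, hx₀⟩ := s.2
  have hx₀' : vs 𝔹 x₀ = s := Subtype.ext hx₀
  have hτ₁ : τ₁ (fun _ => s) = s := by
    obtain ⟨ψ, -, h2, -, h4⟩ := hstar Unit (fun _ _ => x₀)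
    have h5 := (h4 () ()).1 0 (fun i => by
      change ty 𝔹 x₀ = s.1
      exact hx₀)
    have h5' : ty 𝔹 (ψ ()) = s.1 := h5
    have h6 := h2 ()
    simp only [hx₀'] at h6
    rw [← h6]
    exact Subtype.ext h5'
  obtain ⟨x₁, hx₁ne, hx₁⟩ := two_elements hB.amg x₀
  have hκ₁ : ∀ D : Set (Fin 2), κ₁ (fun _ => s) (fun _ => s) D → D = Set.univ := by
    intro D hD
    obtain ⟨G, hG0, hG1⟩ : ∃ G : Fin 2 → Fin 2 → V, (∀ i, G i 0 = x₀) ∧
        ∀ i, G i 1 = if i ∈ D then x₀ else x₁ :=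
      ⟨fun i a => if a = 0 then x₀ else if i ∈ D then x₀ else x₁, fun i => by simp,
        fun i => by simp⟩
    obtain ⟨ψ, -, -, h3, h4⟩ := hstar (Fin 2) G
    have hs0 : (fun i => vs 𝔹 (G i 0)) = fun _ => s := by
      funext i
      rw [hG0, hx₀']
    have hs1 : (fun i => vs 𝔹 (G i 1)) = fun _ => s := by
      funext i
      rw [hG1]
      split_ifs
      · exact hx₀'
      · rw [hx₁, hx₀']
    have hset : {i : Fin 2 | G i 0 = G i 1} = D := by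
      ext i
      rw [Set.mem_ofPred_eq, hG0, hG1]
      by_cases hi : i ∈ D
      · simp [hi]
      · simp only [hi, if_false, iff_false]
        exact fun h => hx₁ne h.symm
    have h5 := h3 0 1
    rw [hs0, hs1, hset] at h5
    have h6 := h5.2 hD
    have h7 := (h4 0 1).2 (fun a i => by
      fin_cases a
      · change ty 𝔹 (G i 0) = s.1
        exact congrArg Subtype.val (congrFun hs0 i)
      · change ty 𝔹 (G i 1) = s.1
        exact congrArg Subtype.val (congrFun hs1 i)) h6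
    rw [← hset]
    ext i
    simp only [Set.mem_univ, iff_true]
    exact h7 i
  -- the action on the types
  obtain ⟨c, hc⟩ : ∃ c : SS 𝔹 → SS 𝔹, c = fun t => τ₁ (fun _ => t) := ⟨_, rfl⟩
  have hcact : ∀ (W : Type) [Finite W] (G : W → V), ∃ ψ : W → V,
      Cx 𝔸 (fun _ : Unit => G) ψ ∧ ∀ w, vs 𝔹 (ψ w) = c (vs 𝔹 (G w)) := by
    intro W _ G
    obtain ⟨ψ, h1, h2, -, -⟩ := hstar W (fun _ => G)
    refine ⟨ψ, fun l z hz => h1 l z fun _ => hz (), fun w => ?_⟩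
    rw [h2, hc]
  have hcinj : Injective c := by
    have hSb : Sb 𝔸 𝔹 (fun t => if h : t ∈ Rlz 𝔹 then (c ⟨t, h⟩).1 else t) := by
      intro W _ G
      obtain ⟨ψ, h1, h2⟩ := hcact W G
      refine ⟨ψ, h1, fun w => ?_⟩
      have h3 : ty 𝔹 (G w) ∈ Rlz 𝔹 := ⟨G w, rfl⟩
      simp only [dif_pos h3]
      exact congrArg Subtype.val (h2 w)
    intro t t' htt
    have h1 := hP _ hSb t.2 t'.2 (by
      simp only [dif_pos t.2, dif_pos t'.2]
      exact congrArg Subtype.val htt)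
    exact Subtype.ext h1
  have hcbij : Bijective c := Finite.injective_iff_bijective.1 hcinj
  obtain ⟨n, hn, hcn⟩ : ∃ n : ℕ, 0 < n ∧ ∀ t, c^[n] t = t := by
    let π : Equiv.Perm (SS 𝔹) := Equiv.ofBijective c hcbij
    refine ⟨orderOf π, orderOf_pos π, fun t => ?_⟩
    have h1 : (π ^ orderOf π) t = t := by
      rw [pow_orderOf_eq_one]
      rfl
    have h2 : ∀ (j : ℕ) (t : SS 𝔹), (π ^ j) t = c^[j] t := by
      intro j t
      rw [Equiv.Perm.coe_pow]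
      rfl
    rw [← h2]
    exact h1
  obtain ⟨j, rfl⟩ : ∃ j, n = j + 1 := ⟨n - 1, by omega⟩
  have hδ : ∀ t, c^[j] (c t) = t := by
    intro t
    rw [← iterate_succ_apply]
    exact hcn t
  have hcs : c s = s := by rw [hc]; exact hτ₁
  have hδs : c^[j] s = s := by
    have := hδ s
    rwa [hcs] at this
  have hSbn : Sbn (P0 𝔹) 𝔸 (c0 𝔹) (fun t : Unit → SS 𝔹 => c^[j] (t ())) := by
    intro W _ G
    obtain ⟨ψ, h1, h2⟩ := iter_sbn c hcact j W (G ())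
    refine ⟨ψ, h1, fun w => ?_⟩
    simp only [vt_c0]
    exact h2 w
  obtain ⟨κ₂, hbh₂⟩ := hKRL V σ ρ 𝔸 𝔹 m hB hO hT hm hC hZ Unit _ hSbn
  -- the kernel of the second behaviour
  have hκ₂ : ∀ D : Set Unit, κ₂ (fun _ => s) (fun _ => s) D → D = Set.univ := by
    intro D hD
    rcases Set.eq_empty_or_nonempty D with h | ⟨⟨⟩, h⟩
    · exfalso
      apply hnc
      intro W _ G
      obtain ⟨ψ, h1, -, h3⟩ := bh_vs hbh₂ W (fun _ => G)
      refine ⟨ψ, h1, fun w w' hw hw' => ?_⟩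
      have hv : vs 𝔹 (G w) = s := Subtype.ext hw
      have hv' : vs 𝔹 (G w') = s := Subtype.ext hw'
      rw [h3, hv, hv']
      by_cases hg : G w = G w'
      · have h4 := (h3 w w).1 rfl
        rw [hv] at h4
        have h5 : {i : Unit | G w = G w} = {i : Unit | G w = G w'} := by rw [hg]
        rw [← h5]
        exact h4
      · have h5 : {i : Unit | G w = G w'} = ∅ := by
          ext i
          simp [hg]
        rw [h5, ← h]
        exact hD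
    · ext i
      simp only [Set.mem_univ, iff_true]
      exact h
  -- the composition
  refine ⟨fun t => c^[j] (τ₁ t),
    fun t t' D => κ₂ (fun _ => τ₁ t) (fun _ => τ₁ t') {_i : Unit | κ₁ t t' D}, ?_, ?_, ?_⟩
  · intro W _ G
    obtain ⟨ψ₁, h1, h2, h3⟩ := bh_vs hbh₁ W G
    obtain ⟨ψ₂, h4, h5, h6⟩ := bh_vs hbh₂ W (fun _ => ψ₁)
    refine ⟨ψ₂, cx_trans h1 h4, fun w => ?_, fun u w => ?_⟩
    · simp only [vt_c0]
      rw [h5, h2]
    · simp only [vt_c0]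
      rw [h6, ← h2, ← h2]
      have h7 : {i : Unit | ψ₁ u = ψ₁ w} = {_i : Unit | κ₁ (fun i => vs 𝔹 (G i u))
          (fun i => vs 𝔹 (G i w)) {i | G i u = G i w}} := by
        ext i
        exact h3 u w
      rw [h7]
  · intro t
    have h1 : τ₁ (fun _ => t) = c t := by rw [hc]
    change c^[j] (τ₁ (fun _ => t)) = t
    rw [h1]
    exact hδ t
  · intro D hD
    have hD' : κ₂ (fun _ => τ₁ (fun _ => s)) (fun _ => τ₁ (fun _ => s))
        {_i : Unit | κ₁ (fun _ => s) (fun _ => s) D} := hD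
    rw [hτ₁] at hD'
    have h1 := hκ₂ _ hD'
    have h2 : () ∈ {_i : Unit | κ₁ (fun _ => s) (fun _ => s) D} := by
      rw [h1]
      exact Set.mem_univ ()
    exact hκ₁ D h2

end Pool.Agent.H64.LH
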